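import Pool.Agent.V11168.MV.CloP

/-!
# Kodaira dimension = numerical dimension for klt and lc pairs with closed multivalued 1-forms

Let `Z` be a projective variety with function field `L`, `G` a finite group of birational automorphisms of
`Z`, and `(X, Δ)` a klt pair (more generally a log canonical pair) with `X` birational to `Z / G`; the
function field of `X` is the field of invariants `fixedField G`, and `Z → X` is a Galois cover which may be
ramified. `Δ` is given by its multiplicities `δ v = max (0, -a (v, X, Δ)) ≤ 1` along all prime divisors `v`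
over `X`, where `a (v, X, Δ)` is the discrepancy; the pair is klt if no `δ v` is equal to `1`. Then
`h⁰ (⌊m (K_X + Δ)⌋)` is the dimension of the space of the `m`-fold pluricanonical forms on the function field
with pole order at most `m δ v` at all `v` (`PairSec`).

Let `f : X → B` be a dominant rational map, `dim B = d`, `dim X = d + (r + 1)`, with
`M ⊂ fixedField G` the function field of `B` (`B` may be a point), and let `B'` with the function field
`M' ⊂ L` be the Stein factorization of `Z → B`: `M'` is algebraically closed in `L`, of transcendence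
degree `d`.

Let `V` be a space of closed 1-forms on `Z`, holomorphic except for logarithmic poles over the prime divisors
`v` over `X` with `δ v = 1` (holomorphic in the klt case), which are also logarithmic as multivalued 1-forms on
`X` (`IsMultiLogOn`): along each prime divisor `v` over `X`, their values on the vector fields on `X` which
are regular along `v`, and tangent to `v` if `δ v = 1` (lifted to `Z`), are regular along the prime divisors
`w` over `v`. For example the forms on a spectral cover `Z` given by the factors of (logarithmic) symmetric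
differentials on `X`. It is assumed that `r + 1` forms in `V` are linearly independent on the general fibre
of `Z → B'` (`IndepOver`). There is no condition of Reid-Tai type on the action of `G`.

`Δ_B` is a divisor on `B`, given by its multiplicities `δB u ≤ 1` along all prime divisors `u` over `B`, with
`e (1 - δ v) ≤ c (1 - δB u)` if the prime divisor `w` over `Z` has ramification index `e` over its image `v` in
`X` and lies over `u` with multiplicity `c` (`MultBoundP`); that is, `1 - δ v ≤ c' (1 - δB u)`, where
`c' = c / e` is the multiplicity of `v` over `u`: `f` is a morphism of orbifold pairs.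

Let `W = constFields (fibreForms M' V)` be the space of the vector fields on the generic fibre of `Z → B'` on
which all forms in `V` are constant; for the upper bound it is assumed that they are regular on some
projective model of the generic fibre (`IsRegularOnModel`), and that (`TangentBd`) if `w` dominates the base
of the fibration given by `W` (all functions killed by `W` have order zero along `w`), and has ramification
index `e` over `v`, then `δ v ≤ 1 - 1 / e`, or `W` is tangent to `w`. `K_B + Δ_B` of general type is only
assumed for the equality `κ = ν`.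
-/

set_option autoImplicit false

open FF IntermediateField Pool.Agent.W619.PQ Pool.Agent.W619.TW Pool.Agent.W619.Y
  Pool.Agent.Y173.QA Pool.Agent.Y173.QM Pool.Agent.Y174 Pool.Agent.V11168.Rel
  Pool.Agent.V11168.Pair Pool.Agent.V11168.MV

namespace Pool.Agent.Results.MP_e23cd6_ag.ClosedMultivaluedPairs

/-- `κ (K_X + Δ) = a` (and not `-∞`): for some `m ≥ 1` there are `h + 1` sections of `m (K_X + Δ)` whose
`h` ratios are algebraically independent (`PairKod`), exactly for `h ≤ a`. -/
def HasKodairaDim (k K : Type) [Field k] [Field K] [Algebra k K] (n : ℕ) (δ : Place k K → ℝ)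
    (a : ℕ) : Prop :=
  ∀ h, PairKod k K n δ h ↔ h ≤ a

/-- The numerical dimension of `K_X + Δ` is `a`: for every divisor `A` there is `C` with
`h⁰ (m (K_X + Δ) + A) ≤ C m ^ h` for all `m ≥ 1` (`PairNum`), exactly for `h ≥ a`. -/
def HasNumericalDim (k K : Type) [Field k] [Field K] [Algebra k K] (n : ℕ) (δ : Place k K → ℝ)
    (a : ℕ) : Prop :=
  ∀ h, PairNum k K n δ h ↔ a ≤ h

/-- **Theorem.** Let `Z`, `G`, `(X, Δ)`, `f : X → B`, `B'` and `V` be as above, `s` the dimension of the space
`W` of the constant vector fields of the generic fibre of `Z → B'`, and `a = (r + 1) - s`. Then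
`κ (K_X + Δ) ≥ κ (K_B + Δ_B) + a` for all `Δ_B` as above. If `W` is regular on a model and satisfies
`TangentBd`, then `ν (K_X + Δ) ≤ dim B + a`; so if moreover `K_B + Δ_B` is of general type for some `Δ_B`,
then `κ (K_X + Δ) = ν (K_X + Δ) = dim B + a`. -/
theorem result {L : Type} [Field L] [Algebra ℂ L] [Algebra.EssFiniteType ℂ L]
    -- the quotient and the pair
    (G : Subgroup (L ≃ₐ[ℂ] L)) [Finite G]
    {δ : Place ℂ (fixedField G) → ℝ} (hδ0 : ∀ v, 0 ≤ δ v) (hδ1 : ∀ v, δ v ≤ 1)
    -- the base and the Stein factorization
    (M M' : IntermediateField ℂ L) [Algebra.EssFiniteType ℂ M] [Algebra.EssFiniteType ℂ M']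
    (hMX : ∀ x ∈ M, x ∈ fixedField G) (hMM' : M ≤ M') (hMcl : ∀ x : L, IsAlgebraic M' x → x ∈ M')
    {d r : ℕ} (hM : Algebra.trdeg ℂ M = d) (hM' : Algebra.trdeg ℂ M' = d)
    (hn : Algebra.trdeg ℂ L = (d + (r + 1) : ℕ))
    {T : Finset (fixedField G)}
    (hT : ∀ v : Place ℂ (fixedField G), IsDivisorial v (d + (r + 1)) →
      ∃ g ∈ T, g ≠ 0 ∧ δ v ≤ (v.ord g : ℝ))
    -- the forms
    (V : Submodule ℂ (Derivation ℂ L L →ₗ[L] L))
    (hlog : ∀ θ ∈ V, IsLogForm (d + (r + 1)) (BdOn fun v => δ v = 1) θ)
    (hcl : ∀ θ ∈ V, IsClosedForm θ)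
    (hV : ∀ θ ∈ V, IsMultiLogOn G (d + (r + 1)) (fun v => δ v = 1) θ)
    (hind : ∃ θ : Fin (r + 1) → Derivation ℂ L L →ₗ[L] L, (∀ i, θ i ∈ V) ∧
      IndepOver (m := d) M' θ) :
    ∃ a : ℕ, a + Module.finrank M' (constFields (fibreForms M' V)) = r + 1 ∧
      (∀ δB : Place ℂ M → ℝ, (∀ u, δB u ≤ 1) → MultBoundP (d + (r + 1)) G M δ δB →
        ∀ h, PairKod ℂ M d δB h → PairKod ℂ (fixedField G) (d + (r + 1)) δ (h + a)) ∧
      (IsRegularOnModel (constFields (fibreForms M' V)) →
        TangentBd (d + (r + 1)) G M' (constFields (fibreForms M' V)) δ →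
        PairNum ℂ (fixedField G) (d + (r + 1)) δ (d + a) ∧
        ((∃ δB : Place ℂ M → ℝ, (∀ u, δB u ≤ 1) ∧ MultBoundP (d + (r + 1)) G M δ δB ∧
            PairKod ℂ M d δB d) →
          HasKodairaDim ℂ (fixedField G) (d + (r + 1)) δ (d + a) ∧
          HasNumericalDim ℂ (fixedField G) (d + (r + 1)) δ (d + a))) := by
  have _ := hδ1
  obtain ⟨θ, hθ, hθi⟩ := hind
  obtain ⟨a, ha, h1, h2⟩ := clo_mainP hMM' hMcl hM hM' hn G hMX hδ0
    (Bd := fun v => δ v = 1) (fun v hv => hv.ge) hT hlog hcl hV hθ hθi
  refine ⟨a, ha, h1, fun hmod htan => ⟨h2 hmod htan, ?_⟩⟩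
  rintro ⟨δB, hB, hδ, hgt⟩
  have h3 := h2 hmod htan
  have h4 := h1 δB hB hδ d hgt
  exact ⟨fun h => ⟨fun h5 => pair_le h5 h3, fun h5 => pairKod_mono h5 h4⟩,
    fun h => ⟨fun h5 => pair_le h4 h5, fun h5 => pairNum_mono h5 h3⟩⟩

end Pool.Agent.Results.MP_e23cd6_ag.ClosedMultivaluedPairs
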