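import Pool.Agent.Y174.OB.O10
import Pool.Agent.V11168.Rel.PairDim

/-!
# Abundance for pairs whose orbifold symmetric differentials have no base locus over a general point

Let `(X, Δ)` be a projective pair, given by its function field `K` and the multiplicities `δ v` of
`Δ` along the prime divisors `v` over `X` (for a klt pair `δ v = max 0 (- a v)`, `a v` the
discrepancy, so that `δ v < 1`), and let `Δ0 ≤ Δ` be an orbifold divisor in the sense of Campana
(multiplicities `δ0 v = 1 - 1 / q`, or `1`). The hypothesis `NoBaseOrb` is that the symmetric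
differentials of positive degrees of the orbifold `(X, Δ0)` have no common zero at the geometric
generic point of the projectivized tangent bundle. No condition is imposed on the Kodaira dimension.
-/

set_option autoImplicit false

open Pool.Agent.W619.PQ Pool.Agent.W619.TW Pool.Agent.W619.Y Pool.Agent.Y174 FF

namespace Pool.Agent.Results.MP_e23cd6_ag.OrbifoldSymDifferentials

/-- Let `X → W` be an algebraic fibre space, for instance the Iitaka fibration of `K_X + Δ`, `L` the
function field of `W`, `dim W = d`, `dim X = d + (r + 1)`, and `F` the function field of the geometric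
generic fibre, over the algebraic closure `Λ` of `L`, with the restrictions `δF`, `δF0` of `Δ`, `Δ0`.
Let the orbifold symmetric differentials of `(X, Δ0)` have no common zeros at the geometric generic
point. Then `κ (K_X + Δ) ≥ 0` (nonvanishing), and if the restriction of `K_X + Δ` to the fibre has
Kodaira dimension at most `0`, then this Kodaira dimension is `0`, and there is a finite Galois cover
`M` of the fibre with `dim F` independent orbifold 1-forms with values in `M`, and `dim F` independent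
1-forms on `M` which are regular except for logarithmic poles over the components of multiplicity `1`
of `Δ0`; and for the pull-back `(M, Δ')` of the pair: `κ` is the same, and
`ν (K_X + Δ) ≤ dim W + ν (K_M + Δ')`. So if `ν (K_M + Δ') = 0` and `κ (K_X + Δ) ≥ dim W`, then
`κ (K_X + Δ) = ν (K_X + Δ) = dim W`. -/
theorem result {L K Λ F : Type} [Field L] [Field K] [Field Λ] [Field F]
    -- the function fields of `W` and `X`
    [Algebra ℂ L] [Algebra ℂ K] [Algebra L K] [IsScalarTower ℂ L K]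
    [Algebra.EssFiniteType ℂ L] [Algebra.EssFiniteType ℂ K] {d r : ℕ}
    (hW : Algebra.trdeg ℂ L = d) (hX : Algebra.trdeg ℂ K = (d + (r + 1) : ℕ))
    (hLK : ∀ x : K, IsAlgebraic L x → x ∈ Set.range (algebraMap L K))
    -- the geometric generic fibre
    [Algebra L Λ] [IsAlgClosure L Λ] [Algebra Λ F] [Algebra K F] [Algebra L F]
    [IsScalarTower L Λ F] [IsScalarTower L K F] [Algebra ℂ Λ] [Algebra ℂ F]
    [IsScalarTower ℂ L Λ] [IsScalarTower ℂ Λ F] [IsScalarTower ℂ K F]
    (hF : IntermediateField.adjoin Λ (Set.range (algebraMap K F)) = ⊤)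
    -- the divisors
    {δ δ0 : Place ℂ K → ℝ} (hO : IsOrb δ0) (hle : ∀ v, δ0 v ≤ δ v) {S : Finset K}
    (hS : ∀ v : Place ℂ K, IsDivisorial v (d + (r + 1)) → ∃ g ∈ S, g ≠ 0 ∧ δ v ≤ (v.ord g : ℝ))
    {δF δF0 : Place Λ F → ℝ} (hδF : IsPullFib δ δF) (hδF0 : IsPullFib δ0 δF0) (hOF : IsOrb δF0)
    (hleF : ∀ w, δF0 w ≤ δF w)
    -- the symmetric differentials
    (hsym : NoBaseOrb ℂ K (d + (r + 1)) δ0) :
    PairKod ℂ K (d + (r + 1)) δ 0 ∧
    (¬ PairKod Λ F (r + 1) δF 1 → PairKod Λ F (r + 1) δF 0 ∧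
      ∃ M : IntermediateField F (AlgebraicClosure F), FiniteDimensional F M ∧ IsGalois F M ∧
        (∃ ω : Fin (r + 1) → (Derivation Λ F F →ₗ[F] M), LinearIndependent M ω ∧
          ∀ i, OrbForm (r + 1) δF0 (ω i)) ∧
        (∃ η : Fin (r + 1) → (Derivation Λ M M →ₗ[M] M), LinearIndependent M η ∧
          ∀ i, ∀ w : Place Λ M, IsDivisorial w (r + 1) → ∀ D : Derivation Λ M M,
            LogFld (BdOn fun v => δF0 v = 1) w D → w.Reg (η i D)) ∧
        ∀ δ' : Place Λ M → ℝ, IsPull δF δ' →
          (∀ a, PairKod Λ F (r + 1) δF a ↔ PairKod Λ M (r + 1) δ' a) ∧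
          (∀ h, PairNum Λ M (r + 1) δ' h →
            PairNum Λ F (r + 1) δF h ∧ PairNum ℂ K (d + (r + 1)) δ (d + h)) ∧
          (PairNum Λ M (r + 1) δ' 0 → PairKod ℂ K (d + (r + 1)) δ d →
            ∀ h, (PairKod ℂ K (d + (r + 1)) δ h ↔ h ≤ d) ∧
              (PairNum ℂ K (d + (r + 1)) δ h ↔ d ≤ h))) := by
  have h1 : IsAlgClosed Λ := IsAlgClosure.isAlgClosed L
  have h2 : Algebra.IsAlgebraic L Λ := IsAlgClosure.isAlgebraic
  have hδ01 : ∀ v, δ0 v ≤ 1 := by
    intro v
    rcases hO v with h | ⟨q, hq, h⟩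
    · exact h.le
    · rw [h]
      have : (0 : ℝ) ≤ 1 / q := by positivity
      linarith
  refine ⟨OB.nonvanishing ‹Algebra.EssFiniteType ℂ K› hX hO hle hsym, fun hκ => ?_⟩
  have hfib : NoBaseOrb Λ F (r + 1) δF0 :=
    OB.noBase_fib ‹Algebra.EssFiniteType ℂ K› hW hX hF hδF0 hδ01 hsym
  obtain ⟨M, hM1, hM2, hM3, hM4, hM5, hM6⟩ := OB.main_base ‹Algebra.EssFiniteType ℂ L›
    ‹Algebra.EssFiniteType ℂ K› hW hX hLK hF hS hδF hOF hleF hκ hfib
  refine ⟨hM5, M, hM1, hM2, hM3, hM4, fun δ' hδ' => ?_⟩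
  obtain ⟨h3, h4⟩ := hM6 δ' hδ'
  refine ⟨h3, h4, fun h5 h6 h => ?_⟩
  have h7 : PairNum ℂ K (d + (r + 1)) δ d := (h4 0 h5).2
  exact ⟨⟨fun h8 => Pool.Agent.V11168.Rel.pair_le h8 h7,
    fun h8 => Pool.Agent.V11168.Rel.pairKod_mono h8 h6⟩,
    ⟨fun h8 => Pool.Agent.V11168.Rel.pair_le h6 h8,
    fun h8 => Pool.Agent.V11168.Rel.pairNum_mono h8 h7⟩⟩

end Pool.Agent.Results.MP_e23cd6_ag.OrbifoldSymDifferentials
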